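import Pool.Agent.W973.IP.Defs

set_option autoImplicit false

namespace Pool.Agent.W60.IP

open Pool.Agent.W973.IP MvPolynomial

theorem not_good_bad {n : ℕ} {P : MvPolynomial (Fin n ⊕ Fin n) ℚ} {a : Ft n → ℝ} {c e : ℝ}
    (hg : Good P a c e) (hb : Bad P a c e) : False := by
  obtain ⟨u, hu⟩ := hg
  obtain ⟨w, hw⟩ := hb u
  exact lt_asymm (hu w) hw

theorem sign (h1 : S_GOP) (h2 : S_BOP) (h3 : S_TRUE) (h4 : S_FALSE) : S_SIGN := by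
  intro n P a hP hpos N c₁ hN hc₁ hall
  set f : ℝ × ℝ → ℝ × ℝ := fun p => (p.1, p.2 * p.1 ^ N) with hf
  have hfc : Continuous f := by
    rw [hf]
    fun_prop
  set U : Set (ℝ × ℝ) := f ⁻¹' {p : ℝ × ℝ | 0 < p.1 ∧ 0 < p.2 ∧ Good P a p.1 p.2} with hU
  set V : Set (ℝ × ℝ) := f ⁻¹' {p : ℝ × ℝ | 0 < p.1 ∧ 0 < p.2 ∧ Bad P a p.1 p.2} with hV
  have hUo : IsOpen U := (h1 n P a hpos).preimage hfc
  have hVo : IsOpen V := (h2 n P a hP).preimage hfc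
  have hpre : IsPreconnected (Set.Ioc (0 : ℝ) c₁ ×ˢ Set.Ioc (0 : ℝ) 1) :=
    ((convex_Ioc _ _).prod (convex_Ioc _ _)).isPreconnected
  have hmem : ∀ c θ : ℝ, (c, θ) ∈ Set.Ioc (0 : ℝ) c₁ ×ˢ Set.Ioc (0 : ℝ) 1 →
      0 < c ∧ 0 < θ * c ^ N ∧ θ * c ^ N ≤ c ^ N ∧ c ≤ c₁ := by
    intro c θ h
    obtain ⟨⟨hc0, hc1⟩, ⟨ht0, ht1⟩⟩ := h
    have hcN : (0 : ℝ) < c ^ N := pow_pos hc0 N
    exact ⟨hc0, mul_pos ht0 hcN, by
      have := mul_le_mul_of_nonneg_right ht1 hcN.le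
      rwa [one_mul] at this, hc1⟩
  have hcov : Set.Ioc (0 : ℝ) c₁ ×ˢ Set.Ioc (0 : ℝ) 1 ⊆ U ∪ V := by
    rintro ⟨c, θ⟩ h
    obtain ⟨k1, k2, k3, k4⟩ := hmem c θ h
    rcases hall c (θ * c ^ N) k1 k4 k2 k3 with hg | hb
    · left
      exact ⟨k1, k2, hg⟩
    · right
      exact ⟨k1, k2, hb⟩
  have key : ∀ p ∈ Set.Ioc (0 : ℝ) c₁ ×ˢ Set.Ioc (0 : ℝ) 1,
      ∀ q ∈ Set.Ioc (0 : ℝ) c₁ ×ˢ Set.Ioc (0 : ℝ) 1, p ∈ U → q ∈ V → False := by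
    intro p hp q hq hpU hqV
    obtain ⟨x, -, hxU, hxV⟩ := hpre U V hUo hVo hcov ⟨p, hp, hpU⟩ ⟨q, hq, hqV⟩
    exact not_good_bad hxU.2.2 hxV.2.2
  have h1mem : ((c₁, 1) : ℝ × ℝ) ∈ Set.Ioc (0 : ℝ) c₁ ×ˢ Set.Ioc (0 : ℝ) 1 :=
    ⟨⟨hc₁, le_refl _⟩, ⟨one_pos, le_refl _⟩⟩
  constructor
  · intro hex
    obtain ⟨δ, hδ, hgood⟩ := h3 n P a hP hpos hex
    set m := min δ (min c₁ 1) with hm
    have hm0 : 0 < m := lt_min hδ (lt_min hc₁ one_pos)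
    have hmδ : m ≤ δ := min_le_left _ _
    have hmc : m ≤ c₁ := le_trans (min_le_right _ _) (min_le_left _ _)
    have hm1 : m ≤ 1 := le_trans (min_le_right _ _) (min_le_right _ _)
    have hc0 : 0 < m / 2 := by linarith
    have hcN : (m / 2) ^ N ≤ m / 2 := by
      apply pow_le_of_le_one hc0.le (by linarith) (by omega)
    have hcN0 : 0 < (m / 2) ^ N := pow_pos hc0 N
    have hg := hgood (m / 2) ((m / 2) ^ N) hc0 (by linarith) hcN0 (by linarith)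
    have hpmem : ((m / 2, 1) : ℝ × ℝ) ∈ Set.Ioc (0 : ℝ) c₁ ×ˢ Set.Ioc (0 : ℝ) 1 :=
      ⟨⟨hc0, by linarith⟩, ⟨one_pos, le_refl _⟩⟩
    have hpU : ((m / 2, 1) : ℝ × ℝ) ∈ U := by
      refine ⟨hc0, ?_, ?_⟩
      · show (0 : ℝ) < 1 * (m / 2) ^ N
        rw [one_mul]
        exact hcN0
      · show Good P a (m / 2) (1 * (m / 2) ^ N)
        rw [one_mul]
        exact hg
    rcases hcov h1mem with hU1 | hV1
    · have h := hU1.2.2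
      have h' : Good P a c₁ (1 * c₁ ^ N) := h
      rwa [one_mul] at h'
    · exact (key _ hpmem _ h1mem hpU hV1).elim
  · intro hg
    by_contra hcon
    have hcon' : ∀ u, ∃ w, hv P u w = 0 := by
      intro u
      by_contra h
      apply hcon
      refine ⟨u, fun w hw => h ⟨w, hw⟩⟩
    obtain ⟨δ, hδ, hbad⟩ := h4 n P a hP hcon' c₁ hc₁
    have hcN0 : 0 < c₁ ^ N := pow_pos hc₁ N
    set θ := min 1 (δ / c₁ ^ N) / 2 with hθ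
    have hmin0 : 0 < min 1 (δ / c₁ ^ N) := lt_min one_pos (div_pos hδ hcN0)
    have hθ0 : 0 < θ := by
      rw [hθ]
      linarith
    have hθ1 : θ ≤ 1 := by
      have := min_le_left (1 : ℝ) (δ / c₁ ^ N)
      rw [hθ]
      linarith
    have hθδ : θ * c₁ ^ N < δ := by
      have h5 := min_le_right (1 : ℝ) (δ / c₁ ^ N)
      have h6 : θ < δ / c₁ ^ N := by
        rw [hθ]
        linarith
      rwa [lt_div_iff₀ hcN0] at h6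
    have hb := hbad (θ * c₁ ^ N) (mul_pos hθ0 hcN0) hθδ
    have hqmem : ((c₁, θ) : ℝ × ℝ) ∈ Set.Ioc (0 : ℝ) c₁ ×ˢ Set.Ioc (0 : ℝ) 1 :=
      ⟨⟨hc₁, le_refl _⟩, ⟨hθ0, hθ1⟩⟩
    have hqV : ((c₁, θ) : ℝ × ℝ) ∈ V := ⟨hc₁, mul_pos hθ0 hcN0, hb⟩
    have hpU : ((c₁, 1) : ℝ × ℝ) ∈ U := by
      refine ⟨hc₁, ?_, ?_⟩
      · show (0 : ℝ) < 1 * c₁ ^ N
        rw [one_mul]
        exact hcN0
      · show Good P a c₁ (1 * c₁ ^ N)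
        rw [one_mul]
        exact hg
    exact key _ h1mem _ hqmem hpU hqV

end Pool.Agent.W60.IP
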